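import Pool.Agent.helper74.VN.SpecC

/-!
# Row vn:NNV (MP_07c750): volumes of neighbours
-/

set_option autoImplicit false

open scoped MatrixGroups ContDiff Topology UpperHalfPlane ComplexConjugate ENNReal
open UpperHalfPlane MeasureTheory Filter Set

namespace Pool.Agent.VN

open Pool.Agent.RS Pool.Agent.VQ

noncomputable section

/-- the basic estimate: sections -/
theorem NNV_sec (hHFM : NHM_stmt) {Γ : Subgroup SL(2, ℝ)} {k : ℝ} {B : ℕ → ℝ} {D : Dyn} (hD : OKN Γ k B D)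
    (h : SL(2, ℝ)) (t : ℝ) (T : Set SL(2, ℝ)) (hT : MeasurableSet T) (J : Set ℝ) (hJ : MeasurableSet J) (hJ8 : ∀ E ∈ J, |E| ≤ k) :
    mP {q : SL(2, ℝ) × ℝ | q.2 ∈ J ∧ h⁻¹ * D.fl q.2 t q.1 ∈ T} ≤ mG T * volume J := by
  classical
  have : SecondCountableTopology SL(2, ℝ) := A_GLC.2.1
  have : SigmaFinite (mG : Measure SL(2, ℝ)) := A_GMG.2.2.1
  set A : Set (SL(2, ℝ) × ℝ) := {q | |q.2| ≤ k} with hA
  have hAc : IsClosed A := isClosed_le (continuous_snd.abs) continuous_const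
  have hcont : ContinuousOn (fun q : SL(2, ℝ) × ℝ => h⁻¹ * D.fl q.2 t q.1) A := by
    have h1 : ContinuousOn (fun q : SL(2, ℝ) × ℝ => D.fl q.2 t q.1) A := by
      have h2 : Continuous (fun q : SL(2, ℝ) × ℝ => ((q.2, t, q.1) : ℝ × ℝ × SL(2, ℝ))) := by fun_prop
      exact hD.cfl.comp h2.continuousOn fun q hq => hq
    exact (continuous_const_mul h⁻¹).comp_continuousOn h1
  have hmeas : MeasurableSet {q : SL(2, ℝ) × ℝ | q.2 ∈ J ∧ h⁻¹ * D.fl q.2 t q.1 ∈ T} := by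
    have hg : Measurable (A.piecewise (fun q : SL(2, ℝ) × ℝ => h⁻¹ * D.fl q.2 t q.1) (fun _ => (1 : SL(2, ℝ)))) :=
      hcont.measurable_piecewise continuousOn_const hAc.measurableSet
    have e1 : {q : SL(2, ℝ) × ℝ | q.2 ∈ J ∧ h⁻¹ * D.fl q.2 t q.1 ∈ T} =
        (Prod.snd ⁻¹' J) ∩ (A.piecewise (fun q : SL(2, ℝ) × ℝ => h⁻¹ * D.fl q.2 t q.1) (fun _ => (1 : SL(2, ℝ)))) ⁻¹' T := by
      ext q
      simp only [Set.mem_ofPred_eq, mem_inter_iff, mem_preimage]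
      constructor
      · rintro ⟨h1, h2⟩
        have hqA : q ∈ A := hJ8 _ h1
        refine ⟨h1, ?_⟩
        rw [Set.piecewise_eq_of_mem _ _ _ hqA]
        exact h2
      · rintro ⟨h1, h2⟩
        have hqA : q ∈ A := hJ8 _ h1
        refine ⟨h1, ?_⟩
        rwa [Set.piecewise_eq_of_mem _ _ _ hqA] at h2
    rw [e1]
    exact (measurable_snd hJ).inter (hg hT)
  rw [mP, Measure.prod_apply_symm hmeas]
  have hsec : ∀ E : ℝ, mG ((fun g : SL(2, ℝ) => (g, E)) ⁻¹' {q : SL(2, ℝ) × ℝ | q.2 ∈ J ∧ h⁻¹ * D.fl q.2 t q.1 ∈ T}) ≤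
      J.indicator (fun _ => mG T) E := by
    intro E
    by_cases hE : E ∈ J
    · rw [Set.indicator_of_mem hE]
      have e2 : (fun g : SL(2, ℝ) => (g, E)) ⁻¹' {q : SL(2, ℝ) × ℝ | q.2 ∈ J ∧ h⁻¹ * D.fl q.2 t q.1 ∈ T} =
          (D.fl E t) ⁻¹' ((fun g => h⁻¹ * g) ⁻¹' T) := by
        ext g
        simp [hE]
      have hT' : MeasurableSet ((fun g : SL(2, ℝ) => h⁻¹ * g) ⁻¹' T) := (continuous_const_mul h⁻¹).measurable hT
      rw [e2, (hHFM Γ k B D hD E t (hJ8 E hE)).measure_preimage hT'.nullMeasurableSet]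
      have h3 := A_GLI h⁻¹
      calc mG ((fun g : SL(2, ℝ) => h⁻¹ * g) ⁻¹' T) = (Measure.map (fun g => h⁻¹ * g) mG) T := by
            rw [Measure.map_apply (continuous_const_mul h⁻¹).measurable hT]
        _ ≤ mG T := by rw [h3]
    · rw [Set.indicator_of_notMem hE]
      have e2 : (fun g : SL(2, ℝ) => (g, E)) ⁻¹' {q : SL(2, ℝ) × ℝ | q.2 ∈ J ∧ h⁻¹ * D.fl q.2 t q.1 ∈ T} = ∅ := by
        ext g
        simp [hE]
      rw [e2]
      simp
  calc ∫⁻ E, mG ((fun g : SL(2, ℝ) => (g, E)) ⁻¹' {q : SL(2, ℝ) × ℝ | q.2 ∈ J ∧ h⁻¹ * D.fl q.2 t q.1 ∈ T})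
      ≤ ∫⁻ E, J.indicator (fun _ => mG T) E := lintegral_mono hsec
    _ = mG T * volume J := by
        rw [lintegral_indicator hJ, lintegral_const, Measure.restrict_apply_univ]

/-- the potential at two base points -/
theorem NNV_pot (hVCD : VCD_stmt) {U : ℍ → ℝ} {C Cb : ℝ} (hC : 1 ≤ C) (hb : ∀ g : SL(2, ℝ), |U (g • I)| ≤ C)
    (hl : ∀ (g : SL(2, ℝ)) (v : ℂ), ‖v‖ ≤ 1 → |Ug U g v - Ug U g 0| ≤ C * ‖v‖)
    (h g : SL(2, ℝ)) (r : ℝ) (hr : dist ((h⁻¹ * g) • I : ℍ) I ≤ r) (hCb : r ≤ Cb) : |U (g • I) - U (h • I)| ≤ 2 * C * r := by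
  obtain ⟨hc1, hc2, hc3, hc4, hc5, hc6, -⟩ := hVCD
  have hr0 : 0 ≤ r := dist_nonneg.trans hr
  set v : ℂ := cd ((h⁻¹ * g) • I) with hv
  have hvr : ‖v‖ ≤ r := (hc6 _).trans hr
  have hgi : h • ((h⁻¹ * g) • I : ℍ) = g • I := by rw [smul_smul, mul_inv_cancel_left]
  have e1 : Ug U h v = U (g • I) := by
    unfold Ug
    rw [hv, (hc1 _).2, hgi]
  have e2 : Ug U h 0 = U (h • I) := by
    unfold Ug
    rw [← hc3, (hc1 _).2]
  by_cases hv1 : ‖v‖ ≤ 1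
  · have h1 := hl h v hv1
    rw [e1, e2] at h1
    nlinarith [norm_nonneg v]
  · have h1 := abs_le.1 (hb g)
    have h2 := abs_le.1 (hb h)
    push Not at hv1
    have h3 : 2 * C * 1 ≤ 2 * C * r := mul_le_mul_of_nonneg_left (by linarith) (by linarith)
    rw [abs_le]
    constructor <;> linarith [h1.1, h1.2, h2.1, h2.2]

theorem NNV_proof (hVBO : VBO_stmt) (hVCD : VCD_stmt) (hNUB : NUB_stmt) (hNHM : NHM_stmt) : NNV_stmt := by
  intro k hk
  obtain ⟨C, hC1, hC2, hC3, hC4, hC5⟩ := hVBO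
  obtain ⟨Cu, hCu1, hCu⟩ := hNUB k hk
  have hCC : 1 ≤ Cu * C := by nlinarith
  refine ⟨2 * C * (2 * Cu + Cu * C), by nlinarith, ?_⟩
  intro Γ B D hD R hR8 hR1 h ρ1 t s hs0 hs4 hρ0 _
  obtain ⟨-, hub, hurho, -, -, hul, -⟩ := hCu Γ B D.U hD.pot
  have hk16 : k ≤ 1 / 16 := hD.pot.kpos.2
  have hwin : ∀ q : SL(2, ℝ) × ℝ, q ∈ GW 2 R → |q.2| ≤ k := by
    intro q hq
    have h1 : q.2 ∈ Wi 2 R := hq.2
    rw [abs_le]
    exact ⟨by linarith [h1.1], by linarith [h1.2]⟩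
  have hvolI : ∀ c r : ℝ, 0 ≤ r → volume (Icc (c - r) (c + r) ∩ Icc (-k) k) ≤ ENNReal.ofReal (2 * r) := by
    intro c r hr
    calc volume (Icc (c - r) (c + r) ∩ Icc (-k) k) ≤ volume (Icc (c - r) (c + r)) := measure_mono inter_subset_left
      _ = ENNReal.ofReal (2 * r) := by rw [Real.volume_Icc]; congr 1; ring
  have hJ8 : ∀ c r : ℝ, ∀ E ∈ Icc (c - r) (c + r) ∩ Icc (-k) k, |E| ≤ k := by
    intro c r E hE
    rw [abs_le]
    exact hE.2
  have hbox : ∀ c r : ℝ, 0 ≤ r → mP {q : SL(2, ℝ) × ℝ | q.2 ∈ Icc (c - r) (c + r) ∩ Icc (-k) k ∧ h⁻¹ * D.fl q.2 t q.1 ∈ Bo s} ≤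
      ENNReal.ofReal (C * s ^ 3 * (2 * r)) := by
    intro c r hr
    refine (NNV_sec hNHM hD h t (Bo s) (hC3 s) _ (measurableSet_Icc.inter measurableSet_Icc) (hJ8 c r)).trans ?_
    rw [ENNReal.ofReal_mul (by positivity)]
    exact mul_le_mul' (hC2 s hs0 (by linarith)) (hvolI c r hr)
  refine ⟨?_, ?_, ?_⟩
  · refine (measure_mono ?_).trans ((hbox ((ρ1 ^ 2 - D.U (h • I)) / 2) ((2 * Cu + Cu * C) * s) (by positivity)).trans ?_)
    · rintro q ⟨hq1, hq2, hq3⟩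
      have hq8 := hwin q hq1
      refine ⟨⟨?_, abs_le.1 hq8⟩, hq2⟩
      set g' : SL(2, ℝ) := D.fl q.2 t q.1 with hg'
      have hd : dist ((h⁻¹ * g') • I : ℍ) I ≤ C * s := hC4 s _ hs0 (by linarith) hq2
      have hU := NNV_pot (Cb := C * s) hVCD hCu1 (fun g => (hub g).1) (fun g v hv => (hul g v hv).2) h g' (C * s) hd le_rfl
      obtain ⟨hr1, hr2, hr3, -⟩ := hurho q.2 g' hq8
      have hr0 : 0 ≤ rho D.U q.2 g' := Real.sqrt_nonneg _
      have hρle : ρ1 ≤ Cu + 1 / 4 := by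
        have := (abs_lt.1 hq3).2
        linarith
      have h4 : |ρ1 ^ 2 - rho D.U q.2 g' ^ 2| ≤ s * (2 * Cu + 1 / 4) := by
        have e1 : ρ1 ^ 2 - rho D.U q.2 g' ^ 2 = (ρ1 - rho D.U q.2 g') * (ρ1 + rho D.U q.2 g') := by ring
        rw [e1, abs_mul]
        refine mul_le_mul hq3.le ?_ (abs_nonneg _) hs0.le
        rw [abs_le]
        constructor <;> linarith
      rw [hr3] at h4
      rw [abs_le] at h4 hU
      have h5 : s * (2 * Cu + 1 / 4) + 2 * Cu * (C * s) ≤ 2 * ((2 * Cu + Cu * C) * s) := by nlinarith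
      constructor
      · linarith [h4.1, h4.2, hU.1, hU.2]
      · linarith [h4.1, h4.2, hU.1, hU.2]
    · apply ENNReal.ofReal_le_ofReal
      apply le_of_eq
      ring
  · intro E
    refine (measure_mono ?_).trans ((hbox E s hs0.le).trans ?_)
    · rintro q ⟨hq1, hq2, hq3⟩
      have hq8 := hwin q hq1
      refine ⟨⟨?_, abs_le.1 hq8⟩, hq2⟩
      rw [abs_lt] at hq3
      exact ⟨by linarith, by linarith⟩
    · apply ENNReal.ofReal_le_ofReal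
      have hs4' : 0 ≤ s ^ 4 := by positivity
      have e1 : C * s ^ 3 * (2 * s) = 2 * C * s ^ 4 := by ring
      rw [e1]
      refine mul_le_mul_of_nonneg_right ?_ hs4'
      nlinarith
  · have hT : MeasurableSet {g : SL(2, ℝ) | dist (g • I : ℍ) I ≤ 3} := by
      have h1 := (A_GMG.1 (Metric.closedBall I 3) Metric.isClosed_closedBall.measurableSet).1
      exact h1
    have h2 := NNV_sec hNHM hD h t _ hT (Icc (-k) k) measurableSet_Icc (fun E hE => abs_le.2 hE)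
    refine (measure_mono ?_).trans (h2.trans ?_)
    · rintro q ⟨hq1, hq2⟩
      refine ⟨abs_le.1 (hwin q hq1), ?_⟩
      change dist ((h⁻¹ * D.fl q.2 t q.1) • I : ℍ) I ≤ 3
      have e1 : dist ((h⁻¹ * D.fl q.2 t q.1) • I : ℍ) I = dist (h • I : ℍ) (D.fl q.2 t q.1 • I) := by
        rw [dist_comm, ← dist_smul h (I : ℍ) ((h⁻¹ * D.fl q.2 t q.1) • I), smul_smul, mul_inv_cancel_left]
      rw [e1]
      linarith
    · rw [Real.volume_Icc]
      calc mG {g : SL(2, ℝ) | dist (g • I : ℍ) I ≤ 3} * ENNReal.ofReal (k - -k) ≤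
            ENNReal.ofReal C * ENNReal.ofReal (k - -k) := mul_le_mul' hC5 le_rfl
        _ = ENNReal.ofReal (C * (k - -k)) := (ENNReal.ofReal_mul (by linarith)).symm
        _ ≤ ENNReal.ofReal (2 * C * (2 * Cu + Cu * C)) := ENNReal.ofReal_le_ofReal (by nlinarith)

end

end Pool.Agent.VN
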